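import Pool.Agent.U627.CT.Proper

/-!
# A Cannon-Thurston lamination whose set of endpoints has positive Hausdorff dimension

Definitions: `Pool.Agent.H322R3.HypDefs` (word metric, Gromov products, Gromov boundary,
convergence actions), `Pool.Agent.R639.CT.Defs` (convergence to boundary points, trees, geometric
actions, visual metrics, Hausdorff dimension) and `Pool.Agent.U627.CT.Dyn` (`TriplesPD`, limit set).
-/

set_option autoImplicit false

namespace Pool.Agent.Results.MP_d1e581_al.LaminationEndpointsPositiveDim

open Filter Topology Pool.Agent.H322R3.Hyp Pool.Agent.R639.CT Pool.Agent.U627.CT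

/-- Let `H` be the free group of rank three (with its standard basis), a word-hyperbolic group.
There are an infinite compact metrizable space `Z` with an action of `H` by homeomorphisms which is
properly discontinuous on distinct triples (and a convergence action in the sense of sequences, with
limit set `Z`), a point `z₀` and a continuous equivariant surjective map `f : ∂H → Z` such that
`h n • z₀ → f ξ` whenever `h n → ξ ∈ ∂H`, i.e. `f` is a Cannon-Thurston map, with the following
property: for every geodesic `0`-hyperbolic space `X` (an `ℝ`-tree) with a geometric action of `H`,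
every base point `x₀ ∈ X`, every `a > 1` and every visual metric `m` on `∂H` with respect to
`X, x₀, a`, the set of endpoints of the lamination `Λ = {(p, q) | p ≠ q, f p = f q}` has positive
Hausdorff dimension with respect to `m`. Such data exist: there is a proper `X` for which there is a
visual metric for every base point and every `a > 1`. -/
theorem result :
    IsHyperbolic (basis 3) ∧
    ∃ (Z : Type) (_ : TopologicalSpace Z) (_ : MulAction (FreeGroup (Fin 3)) Z) (z₀ : Z)
      (f : Boundary (basis 3) → Z),
      CompactSpace Z ∧ TopologicalSpace.MetrizableSpace Z ∧ Infinite Z ∧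
      (∀ h : FreeGroup (Fin 3), Continuous (fun z : Z => h • z)) ∧
      TriplesPD (FreeGroup (Fin 3)) Z ∧ IsConvergenceAction (FreeGroup (Fin 3)) Z ∧
      limitSet (FreeGroup (Fin 3)) Z = Set.univ ∧
      Continuous f ∧ Function.Surjective f ∧
      (∀ (h : FreeGroup (Fin 3)) (ξ : Boundary (basis 3)),
        f (bsmul (closure_basis 3) h ξ) = h • f ξ) ∧
      (∀ (x : ℕ → FreeGroup (Fin 3)) (ξ : Boundary (basis 3)), ConvTo (basis 3) x ξ →
        Tendsto (fun n => x n • z₀) atTop (𝓝 (f ξ))) ∧
      (∀ (X : Type) (_ : MetricSpace X) (_ : MulAction (FreeGroup (Fin 3)) X), IsTree X →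
        IsGeometric (FreeGroup (Fin 3)) X → ∀ (x₀ : X) (a : ℝ), 1 < a →
        ∀ m : MetricSpace (Boundary (basis 3)), IsVisual (basis 3) x₀ a m →
          0 < hausdorffDim m {p | ∃ q, p ≠ q ∧ f p = f q}) ∧
      ∃ (X : Type) (_ : MetricSpace X) (_ : MulAction (FreeGroup (Fin 3)) X), IsTree X ∧
        ProperSpace X ∧ IsGeometric (FreeGroup (Fin 3)) X ∧
        ∀ (x₀ : X) (a : ℝ), 1 < a →
          ∃ m : MetricSpace (Boundary (basis 3)), IsVisual (basis 3) x₀ a m := by
  refine ⟨isHyperbolic_free, Pool.Agent.U627.CT.Z, inferInstance, inferInstance,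
    Pool.Agent.U627.CT.z₀, Pool.Agent.U627.CT.f, inferInstance, inferInstance, inferInstance,
    fun h => continuous_const_smul h, triples_Z, conv_Z, limitSet_Z, f_continuous, f_surj, f_smul,
    ct, ?_, XX, inferInstance, inferInstance, XX_tree, inferInstance, XX_geom,
    fun x₀ a ha => ⟨visMetric a ha, visMetric_visual a ha x₀⟩⟩
  intro X _ _ hX hG x₀ a ha m hm
  have h1 := dim_bp hX hG x₀ a ha m hm
  refine lt_of_lt_of_le h1 ?_
  refine @dimH_mono _ (@MetricSpace.toEMetricSpace _ m) _ _ ?_
  rintro _ ⟨s, rfl⟩
  by_cases hs : s = fun _ => 0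
  · refine ⟨bp (fun _ => 1), fun h => ?_, by rw [f_bp, f_bp]⟩
    have := congrFun (bp_inj h) 0
    rw [hs] at this
    exact absurd this (by decide)
  · exact ⟨bp (fun _ => 0), fun h => hs (bp_inj h), by rw [f_bp, f_bp]⟩

end Pool.Agent.Results.MP_d1e581_al.LaminationEndpointsPositiveDim
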